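import Pool.Agent.K1H76.OM.Stm

/-! # Project OM (helper76), pieces REC and LIM -/

set_option autoImplicit false

namespace Pool.Agent.K1H13.OM

open Pool.Agent.K1H76.OM
open Finset Filter Topology MeasureTheory

theorem S_step (x : ℝ) : S x = T x + (-2) * S (x / 2) := by
  have hfl : ⌊x / 2⌋₊ = ⌊x⌋₊ / 2 := by
    have := Nat.floor_div_natCast x 2
    simpa using this
  unfold S T
  rw [hfl, ← Finset.sum_filter_add_sum_filter_not (Icc 1 ⌊x⌋₊) (fun n => Odd n)]
  congr 1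
  rw [Finset.mul_sum]
  refine Finset.sum_nbij' (fun n => n / 2) (fun m => 2 * m) ?_ ?_ ?_ ?_ ?_
  · intro n hn
    simp only [Finset.mem_filter, Finset.mem_Icc, Nat.not_odd_iff_even] at hn ⊢
    obtain ⟨⟨h1, h2⟩, r, hr⟩ := hn
    omega
  · intro m hm
    simp only [Finset.mem_filter, Finset.mem_Icc, Nat.not_odd_iff_even] at hm ⊢
    refine ⟨⟨by omega, by omega⟩, even_two_mul m⟩
  · intro n hn
    simp only [Finset.mem_filter, Finset.mem_Icc, Nat.not_odd_iff_even] at hn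
    obtain ⟨⟨h1, h2⟩, r, hr⟩ := hn
    omega
  · intro m hm
    simp
  · intro n hn
    simp only [Finset.mem_filter, Finset.mem_Icc, Nat.not_odd_iff_even] at hn
    obtain ⟨⟨h1, h2⟩, r, hr⟩ := hn
    have h3 : n = 2 * (n / 2) := by omega
    have h4 : n / 2 ≠ 0 := by omega
    have h5 : ArithmeticFunction.cardFactors n = 1 + ArithmeticFunction.cardFactors (n / 2) := by
      conv_lhs => rw [h3]
      rw [ArithmeticFunction.cardFactors_mul (by norm_num) h4,
        ArithmeticFunction.cardFactors_apply_prime Nat.prime_two]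
    rw [h5, pow_add, pow_one]

theorem t_REC : S_REC := by
  have main : ∀ K : ℕ, ∀ x : ℝ, 0 ≤ x → x < 2 ^ K →
      S x = ∑ i ∈ range K, (-2 : ℝ) ^ i * T (x / 2 ^ i) := by
    intro K
    induction K with
    | zero =>
      intro x h0 h1
      have h2 : ⌊x⌋₊ = 0 := by
        rw [Nat.floor_eq_zero]
        simpa using h1
      unfold S
      rw [h2]
      simp
    | succ K ih =>
      intro x h0 h1
      rw [S_step x, ih (x / 2) (by positivity) (by rw [pow_succ] at h1; linarith),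
        Finset.sum_range_succ', Finset.mul_sum]
      simp only [pow_zero, one_mul, div_one]
      rw [add_comm]
      congr 1
      refine Finset.sum_congr rfl fun i _ => ?_
      rw [div_div, ← pow_succ', pow_succ']
      ring
  intro x h0 K h1
  exact main K x h0 h1

theorem T_eq (x : ℝ) : T x = ∑ n ∈ Icc 1 ⌊x⌋₊, ao n := by
  unfold T
  rw [Finset.sum_filter]
  rfl

theorem T_bound (hT : Good ao) (B : ℕ) : ∃ C : ℝ, 0 ≤ C ∧ ∀ (j : ℕ) (y : ℝ), 1 ≤ y →
    |T (2 ^ j * y) / (2 ^ j * y)| ≤ C / ((j : ℝ) + 1) ^ B := by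
  obtain ⟨C, hC⟩ := hT B
  have hC0 : 0 ≤ C := by
    have h := hC 1 le_rfl
    simp only [Real.log_one, add_zero, one_pow, div_one, mul_one] at h
    exact (abs_nonneg _).trans h
  refine ⟨C * 2 ^ B, by positivity, ?_⟩
  intro j y hy
  have h2j : (1 : ℝ) ≤ 2 ^ j := one_le_pow₀ (by norm_num)
  have hx : 1 ≤ 2 ^ j * y := by nlinarith
  have hx0 : 0 < 2 ^ j * y := by linarith
  have h1 := hC (2 ^ j * y) hx
  rw [← T_eq] at h1
  rw [abs_div, abs_of_pos hx0, div_le_iff₀ hx0]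
  have hlog : ((j : ℝ) + 1) / 2 ≤ 1 + Real.log (2 ^ j * y) := by
    rw [Real.log_mul (by positivity) (by positivity), Real.log_pow]
    have h3 : 0 ≤ Real.log y := Real.log_nonneg hy
    have h4 : (1 : ℝ) / 2 ≤ Real.log 2 := by
      have := Real.log_two_gt_d9
      linarith
    have h5 : (j : ℝ) * (1 / 2) ≤ j * Real.log 2 := mul_le_mul_of_nonneg_left h4 (by positivity)
    linarith
  have hj : (0 : ℝ) < ((j : ℝ) + 1) / 2 := by positivity
  have hp : (((j : ℝ) + 1) / 2) ^ B ≤ (1 + Real.log (2 ^ j * y)) ^ B :=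
    pow_le_pow_left₀ hj.le hlog B
  have hp0 : 0 < (((j : ℝ) + 1) / 2) ^ B := by positivity
  calc |T (2 ^ j * y)| ≤ C * (2 ^ j * y) / (1 + Real.log (2 ^ j * y)) ^ B := h1
    _ ≤ C * (2 ^ j * y) / (((j : ℝ) + 1) / 2) ^ B :=
        div_le_div_of_nonneg_left (by positivity) hp0 hp
    _ = C * 2 ^ B / ((j : ℝ) + 1) ^ B * (2 ^ j * y) := by
        rw [div_pow]
        field_simp

theorem summ2 : Summable (fun j : ℕ => 1 / ((j : ℝ) + 1) ^ 2) := by
  have h := (summable_nat_add_iff 1).2 (Real.summable_one_div_nat_pow.2 (by norm_num : 1 < 2))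
  simpa using h

theorem t_LIM (hT : Good ao) (hR : S_REC) : S_LIM := by
  have hsum : ∀ y : ℝ, 1 ≤ y → Summable (fun j : ℕ => |T (2 ^ j * y) / (2 ^ j * y)|) := by
    intro y hy
    obtain ⟨C, hC, hb⟩ := T_bound hT 2
    refine Summable.of_nonneg_of_le (fun j => abs_nonneg _) (fun j => hb j y hy) ?_
    have h := summ2.mul_left C
    refine h.congr fun j => ?_
    rw [mul_one_div]
  refine ⟨hsum, ?_⟩
  intro A
  obtain ⟨C, hC, hb⟩ := T_bound hT (A + 2)
  set Z := ∑' j : ℕ, 1 / ((j : ℝ) + 1) ^ 2 with hZ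
  refine ⟨C * Z, ?_⟩
  intro k y hy1 hy2
  set a : ℕ → ℝ := fun j => (-1 : ℝ) ^ j * (T (2 ^ j * y) / (2 ^ j * y)) with ha
  have habs : ∀ j, |a j| = |T (2 ^ j * y) / (2 ^ j * y)| := by
    intro j
    rw [ha]
    simp only
    rw [abs_mul, abs_pow, abs_neg, abs_one, one_pow, one_mul]
  have hsa : Summable a := by
    refine Summable.of_abs ?_
    simp only [habs]
    exact hsum y hy1
  have hy0 : 0 < y := by linarith
  have hG : G y = ∑ j ∈ range (k + 1), a j + ∑' j : ℕ, a (j + (k + 1)) :=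
    (hsa.sum_add_tsum_nat_add (k + 1)).symm
  have h2k : (0 : ℝ) < 2 ^ k := by positivity
  have hS : S (2 ^ k * y) / (2 ^ k * y) = (-1) ^ k * ∑ j ∈ range (k + 1), a j := by
    rw [hR (2 ^ k * y) (by positivity) (k + 1) (by rw [pow_succ]; nlinarith),
      ← Finset.sum_range_reflect, Finset.sum_div, Finset.mul_sum]
    refine Finset.sum_congr rfl fun j hj => ?_
    have hjk : j ≤ k := by
      have := Finset.mem_range.1 hj
      omega
    obtain ⟨i, rfl⟩ := Nat.exists_eq_add_of_le hjk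
    have e1 : j + i + 1 - 1 - j = i := by omega
    rw [e1]
    have e2 : (2 : ℝ) ^ (j + i) * y / 2 ^ i = 2 ^ j * y := by
      rw [pow_add]
      field_simp
    rw [e2, ha]
    simp only
    have e3 : (-2 : ℝ) ^ i = (-1) ^ i * 2 ^ i := by
      rw [← mul_pow]
      norm_num
    have e4 : (-1 : ℝ) ^ (j + i) * ((-1) ^ j * (T (2 ^ j * y) / (2 ^ j * y))) =
        (-1) ^ i * (T (2 ^ j * y) / (2 ^ j * y)) := by
      have : (-1 : ℝ) ^ j * (-1) ^ j = 1 := by
        rw [← mul_pow]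
        norm_num
      rw [pow_add]
      calc (-1 : ℝ) ^ j * (-1) ^ i * ((-1) ^ j * (T (2 ^ j * y) / (2 ^ j * y)))
          = ((-1 : ℝ) ^ j * (-1) ^ j) * ((-1) ^ i * (T (2 ^ j * y) / (2 ^ j * y))) := by ring
        _ = _ := by rw [this, one_mul]
    rw [e4, e3, pow_add]
    field_simp
  have hdiff : S (2 ^ k * y) / (2 ^ k * y) - (-1) ^ k * G y =
      -((-1) ^ k * ∑' j : ℕ, a (j + (k + 1))) := by
    rw [hS, hG]
    ring
  rw [hdiff, abs_neg, abs_mul, abs_pow, abs_neg, abs_one, one_pow, one_mul]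
  have hk1 : (0 : ℝ) < (k : ℝ) + 1 := by positivity
  have hterm : ∀ j : ℕ, |a (j + (k + 1))| ≤ C / ((k : ℝ) + 1) ^ A * (1 / ((j : ℝ) + 1) ^ 2) := by
    intro j
    rw [habs]
    refine (hb (j + (k + 1)) y hy1).trans ?_
    have h1 : (k : ℝ) + 1 ≤ ((j + (k + 1) : ℕ) : ℝ) + 1 := by
      push_cast
      have : (0 : ℝ) ≤ j := by positivity
      linarith
    have h2 : (j : ℝ) + 1 ≤ ((j + (k + 1) : ℕ) : ℝ) + 1 := by
      push_cast
      have : (0 : ℝ) ≤ k := by positivity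
      linarith
    have h3 : ((k : ℝ) + 1) ^ A * ((j : ℝ) + 1) ^ 2 ≤ (((j + (k + 1) : ℕ) : ℝ) + 1) ^ (A + 2) := by
      rw [pow_add]
      exact mul_le_mul (pow_le_pow_left₀ hk1.le h1 A) (pow_le_pow_left₀ (by positivity) h2 2)
        (by positivity) (by positivity)
    calc C / (((j + (k + 1) : ℕ) : ℝ) + 1) ^ (A + 2)
        ≤ C / (((k : ℝ) + 1) ^ A * ((j : ℝ) + 1) ^ 2) :=
          div_le_div_of_nonneg_left hC (by positivity) h3
      _ = C / ((k : ℝ) + 1) ^ A * (1 / ((j : ℝ) + 1) ^ 2) := by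
          field_simp
  have hs1 : Summable (fun j : ℕ => |a (j + (k + 1))|) :=
    (summable_nat_add_iff (k + 1)).2 hsa.abs
  have hs2 : Summable (fun j : ℕ => C / ((k : ℝ) + 1) ^ A * (1 / ((j : ℝ) + 1) ^ 2)) :=
    summ2.mul_left _
  calc |∑' j : ℕ, a (j + (k + 1))| ≤ ∑' j : ℕ, |a (j + (k + 1))| := by
        have := norm_tsum_le_tsum_norm (f := fun j : ℕ => a (j + (k + 1)))
          (by simpa [Real.norm_eq_abs] using hs1)
        simpa [Real.norm_eq_abs] using this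
    _ ≤ ∑' j : ℕ, C / ((k : ℝ) + 1) ^ A * (1 / ((j : ℝ) + 1) ^ 2) :=
        Summable.tsum_le_tsum hterm hs1 hs2
    _ = C / ((k : ℝ) + 1) ^ A * Z := tsum_mul_left
    _ = C * Z / ((k : ℝ) + 1) ^ A := by ring

end Pool.Agent.K1H13.OM
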